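import Pool.Agent.UL3.Stmts

/-!
# Squad UL3, row ROT: rotations
-/

set_option autoImplicit false

namespace Pool.Agent.UL3.H30

open Pool.Agent.UL3

theorem rot : RotStmt := by
  intro u hu
  have hcard : Module.finrank ℝ E3 = Fintype.card (Fin 3) := by simp
  have ho : Orthonormal ℝ (({2} : Set (Fin 3)).domRestrict (fun _ : Fin 3 => u)) := by
    constructor
    · intro i
      exact hu
    · intro i j hij
      exact absurd (Subsingleton.elim i j) hij
  obtain ⟨b, hb⟩ := ho.exists_orthonormalBasis_extension_of_card_eq hcard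
  have hb2 : b 2 = u := hb 2 rfl
  refine ⟨b.repr, fun x => ?_⟩
  rw [b.repr_apply_apply, hb2, real_inner_comm]

end Pool.Agent.UL3.H30
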